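import Mathlib

set_option autoImplicit false

/-!
# 2-rank of the design `D_{g,h}` versus the translation design of `h` (MP_52c3fe_co)
-/

namespace Pool.Agent.Results.MP_52c3fe_co.RankDrop

open Matrix Finset

/-- `F_2^m` -/
abbrev V (m : ℕ) := Fin m → ZMod 2

/-- the sign `(-1)^a` -/
def sgn (a : ZMod 2) : ℤ := if a = 0 then 1 else -1

/-- the Walsh transform `W_f(u) = Σ_x (-1)^{f(x) + u·x}` -/
def walsh {m : ℕ} (f : V m → ZMod 2) (u : V m) : ℤ := ∑ x : V m, sgn (f x + u ⬝ᵥ x)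

/-- `f` is bent: `|W_f(u)| = 2^{m/2}` for all `u` -/
def IsBent {m : ℕ} (f : V m → ZMod 2) : Prop := ∀ u : V m, |walsh f u| = 2 ^ (m / 2)

/-- the dual `f^*` of a bent function: `f^*(u) = 0` if `W_f(u) > 0` and `f^*(u) = 1` otherwise. -/
def dual {m : ℕ} (f : V m → ZMod 2) (u : V m) : ZMod 2 := if 0 < walsh f u then 0 else 1

/-- the incidence matrix `M = (f_b(x))_{b,x}` of the design `D_{g,h}`, where
`f_b(x) = g(b) + h(x+b) + (g+h)(x)` -/
def designMatrix {m : ℕ} (g h : V m → ZMod 2) : Matrix (V m) (V m) (ZMod 2) :=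
  Matrix.of fun b x => g b + h (x + b) + (g x + h x)

/-- the incidence matrix `N = (h(x+y))_{x,y}` of the translation design of `h` -/
def translationMatrix {m : ℕ} (h : V m → ZMod 2) : Matrix (V m) (V m) (ZMod 2) :=
  Matrix.of fun x y => h (x + y)

theorem sgn_add (a b : ZMod 2) : sgn (a + b) = sgn a * sgn b := by
  revert a b; decide

theorem zmod2 (a : ZMod 2) : a = 0 ∨ a = 1 := by
  revert a; decide

theorem dual_spec {m : ℕ} {f : V m → ZMod 2} (hf : IsBent f) (u : V m) :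
    walsh f u = 2 ^ (m / 2) * sgn (dual f u) := by
  have h := hf u
  have hp : (0 : ℤ) < 2 ^ (m / 2) := by positivity
  unfold dual
  split_ifs with h0
  · rw [abs_of_pos h0] at h
    simp [sgn, h]
  · rw [abs_of_nonpos (not_lt.1 h0)] at h
    simp [sgn]
    omega

theorem dual_of_walsh {m : ℕ} {f f' : V m → ZMod 2}
    (h : ∀ u, walsh f u = 2 ^ (m / 2) * sgn (f' u)) : IsBent f ∧ ∀ u, dual f u = f' u := by
  have hp : (0 : ℤ) < 2 ^ (m / 2) := by positivity
  refine ⟨fun u => ?_, fun u => ?_⟩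
  · rw [h u]
    rcases zmod2 (f' u) with h' | h' <;> rw [h'] <;> simp [sgn, abs_of_pos hp]
  · unfold dual
    rw [h u]
    rcases zmod2 (f' u) with h' | h' <;> rw [h'] <;> simp [sgn, hp, hp.le]

/-- character sums -/
theorem sum_sgn {n : ℕ} (c : V n) : ∑ x : V n, sgn (x ⬝ᵥ c) = if c = 0 then 2 ^ n else 0 := by
  split_ifs with hc
  · subst hc
    simp [sgn, ZMod.card]
  · obtain ⟨i, hi⟩ : ∃ i, c i ≠ 0 := by
      by_contra hcon
      push Not at hcon
      exact hc (funext hcon)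
    have hi1 : c i = 1 := (zmod2 (c i)).resolve_left hi
    have h1 : ∑ x : V n, sgn ((x + Pi.single i 1) ⬝ᵥ c) = ∑ x : V n, sgn (x ⬝ᵥ c) :=
      Equiv.sum_comp (Equiv.addRight (Pi.single i (1 : ZMod 2) : V n)) (fun x => sgn (x ⬝ᵥ c))
    have h2 : ∀ x : V n, sgn ((x + Pi.single i 1) ⬝ᵥ c) = - sgn (x ⬝ᵥ c) := by
      intro x
      rw [add_dotProduct, single_dotProduct, hi1, sgn_add]
      simp [sgn]
    simp only [h2, Finset.sum_neg_distrib] at h1
    omega

/-- first half -/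
def fst {n : ℕ} (X : V (n + n)) : V n := fun i => X (Fin.castAdd n i)
/-- second half -/
def snd {n : ℕ} (X : V (n + n)) : V n := fun i => X (Fin.natAdd n i)

theorem dot_split {n : ℕ} (u X : V (n + n)) :
    u ⬝ᵥ X = fst u ⬝ᵥ fst X + snd u ⬝ᵥ snd X := by
  simp only [dotProduct, Fin.sum_univ_add]
  rfl

/-- the Maiorana–McFarland function `x · π(y)` -/
def mm {n : ℕ} (π : V n → V n) (X : V (n + n)) : ZMod 2 := fst X ⬝ᵥ π (snd X)

theorem walsh_mm {n : ℕ} {π ρ : V n → V n} (h1 : ∀ u, π (ρ u) = u) (h2 : ∀ u, ρ (π u) = u)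
    (u : V (n + n)) : walsh (mm π) u = 2 ^ ((n + n) / 2) * sgn (snd u ⬝ᵥ ρ (fst u)) := by
  have hsum : walsh (mm π) u = ∑ y : V n, ∑ x : V n,
      sgn (x ⬝ᵥ π y + (fst u ⬝ᵥ x + snd u ⬝ᵥ y)) := by
    unfold walsh
    rw [← (Fin.appendEquiv (α := ZMod 2) n n).sum_comp, Fintype.sum_prod_type, Finset.sum_comm]
    refine Finset.sum_congr rfl fun y _ => Finset.sum_congr rfl fun x _ => ?_
    rw [dot_split, mm]
    have e1 : fst ((Fin.appendEquiv (α := ZMod 2) n n) (x, y)) = x := by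
      funext i
      exact Fin.append_left x y i
    have e2 : snd ((Fin.appendEquiv (α := ZMod 2) n n) (x, y)) = y := by
      funext i
      exact Fin.append_right x y i
    rw [e1, e2]
  rw [hsum]
  have hinner : ∀ y : V n, ∑ x : V n, sgn (x ⬝ᵥ π y + (fst u ⬝ᵥ x + snd u ⬝ᵥ y)) =
      if y = ρ (fst u) then 2 ^ n * sgn (snd u ⬝ᵥ y) else 0 := by
    intro y
    have : ∀ x : V n, sgn (x ⬝ᵥ π y + (fst u ⬝ᵥ x + snd u ⬝ᵥ y)) =
        sgn (x ⬝ᵥ (π y + fst u)) * sgn (snd u ⬝ᵥ y) := by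
      intro x
      rw [dotProduct_add, ← sgn_add, dotProduct_comm (fst u) x, add_assoc]
    simp only [this, ← Finset.sum_mul, sum_sgn]
    by_cases hy : y = ρ (fst u)
    · subst hy
      rw [h1, if_pos, if_pos rfl]
      funext i
      exact CharTwo.add_self_eq_zero _
    · rw [if_neg hy, if_neg, zero_mul]
      intro h0
      apply hy
      have : π y = fst u := by
        funext i
        exact CharTwo.add_eq_zero.1 (congrFun h0 i)
      rw [← this, h2]
  simp only [hinner, Finset.sum_ite_eq', Finset.mem_univ, if_true]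
  congr 2
  omega

/-- comparison of ranks -/
theorem rank_lt {ι : Type} [Fintype ι] [DecidableEq ι] (M N : Matrix ι ι (ZMod 2))
    (h : ∀ u : ι → ZMod 2, (∀ x, ∑ b, N b x * u b = 0) → ∀ x, ∑ b, M b x * u b = 0)
    (u : ι → ZMod 2) (hu : ∀ x, ∑ b, M b x * u b = 0) (x₀ : ι)
    (hx : ∑ b, N b x₀ * u b ≠ 0) : M.rank < N.rank := by
  rw [← Matrix.rank_transpose M, ← Matrix.rank_transpose N]
  have hM := LinearMap.finrank_range_add_finrank_ker (Mᵀ).mulVecLin
  have hN := LinearMap.finrank_range_add_finrank_ker (Nᵀ).mulVecLin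
  have hlt : LinearMap.ker (Nᵀ).mulVecLin < LinearMap.ker (Mᵀ).mulVecLin := by
    rw [SetLike.lt_iff_le_and_exists]
    refine ⟨?_, u, ?_, ?_⟩
    · intro v hv
      rw [LinearMap.mem_ker] at hv ⊢
      funext x
      refine h v (fun y => ?_) x
      exact congrFun hv y
    · rw [LinearMap.mem_ker]
      funext x
      exact hu x
    · rw [LinearMap.mem_ker]
      intro h0
      exact hx (congrFun h0 x₀)
  have := Submodule.finrank_lt_finrank_of_lt hlt
  unfold Matrix.rank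
  omega

/-- If `g` and `1` are sums of translates of `h`, then `rank M < rank N` as soon as a certain
vector shows it. -/
theorem rank_design_lt {m : ℕ} {g h : V m → ZMod 2} {k l : ℕ} (s : Fin k → V m) (t : Fin l → V m)
    (hs : ∀ x, ∑ j, h (x + s j) = g x) (ht : ∀ x, ∑ j, h (x + t j) = 1)
    (hg : ∀ j, g (s j) = 0) (hg0 : g 0 = 0) (hk : (k : ZMod 2) = 0)
    (x₀ : V m) (hx : g x₀ + h x₀ ≠ 0) :
    (designMatrix g h).rank < (translationMatrix h).rank := by
  have key : ∀ F : V m → ZMod 2, ∑ b, F b * ((∑ j, if b = s j then (1 : ZMod 2) else 0) +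
      if b = 0 then 1 else 0) = (∑ j, F (s j)) + F 0 := by
    intro F
    simp only [mul_add, Finset.mul_sum, Finset.sum_add_distrib, mul_ite, mul_one, mul_zero,
      Finset.sum_ite_eq', Finset.mem_univ, if_true]
    congr 1
    rw [Finset.sum_comm]
    simp
  refine rank_lt _ _ ?_ (fun b => (∑ j, if b = s j then (1 : ZMod 2) else 0) +
      if b = 0 then 1 else 0) ?_ x₀ ?_
  · intro u hu x
    have hu' : ∀ x, ∑ b, h (b + x) * u b = 0 := hu
    have h1 : ∑ b, g b * u b = 0 := by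
      simp only [← hs, Finset.sum_mul]
      rw [Finset.sum_comm]
      simp [hu']
    have h2 : ∑ b, u b = 0 := by
      have : ∀ b, u b = ∑ j, h (b + t j) * u b := by
        intro b
        rw [← Finset.sum_mul, ht, one_mul]
      rw [Finset.sum_congr rfl fun b _ => this b, Finset.sum_comm]
      simp [hu']
    show ∑ b, (g b + h (x + b) + (g x + h x)) * u b = 0
    simp only [add_mul, Finset.sum_add_distrib, ← Finset.mul_sum, h1, h2]
    have h3 : ∑ b, h (x + b) * u b = 0 := by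
      rw [← hu' x]
      exact Finset.sum_congr rfl fun b _ => by rw [add_comm x b]
    rw [h3]
    ring
  · intro x
    show ∑ b, (g b + h (x + b) + (g x + h x)) * _ = 0
    rw [key]
    simp only [hg, hg0, add_zero, zero_add, Finset.sum_add_distrib, hs, Finset.sum_const,
      Finset.card_univ, Fintype.card_fin, nsmul_eq_mul, hk, zero_mul]
    have e1 : ∀ a b : ZMod 2, a + (b + (a + b)) = 0 := by decide
    exact e1 _ _
  · show ∑ b, h (b + x₀) * _ ≠ 0
    rw [key]
    have : ∑ j, h (s j + x₀) = g x₀ := by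
      rw [← hs x₀]
      exact Finset.sum_congr rfl fun b _ => by rw [add_comm]
    rw [this, zero_add]
    exact hx

/-- the permutation `π` of `F_2^4`: in terms of `F_4^2` it is multiplication by a primitive cube
root of unity `ω` on three of the five lines, and by `ω²` on the other two -/
def P (y : V 4) : V 4 :=
  ![y 1 + (1 + y 2) * (1 + y 3) * y 0, y 0 + (y 2 + y 3 + y 2 * y 3) * y 1,
    y 3 + (1 + y 0) * (1 + y 1) * y 2, y 2 + (y 0 + y 1 + y 0 * y 1) * y 3]

/-- its inverse -/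
def Q (y : V 4) : V 4 := fun i => y i + P y i

theorem PQ : ∀ y, P (Q y) = y := by decide

theorem QP : ∀ y, Q (P y) = y := by decide

/-- translations for `g` -/
def S : Fin 6 → V 4 := ![![1,0,0,0], ![0,1,0,0], ![1,1,0,0], ![0,0,1,0], ![0,0,0,1], ![0,0,1,1]]

theorem sum_S : ∀ (y : V 4) (i : Fin 4), ∑ j, P (y + S j) i = y i := by decide

theorem sum_T : ∀ (y : V 4), P y 0 + P (y + ![0,1,0,0]) 0 = 1 := by decide

/-- the function `g(x,y) = x·y` -/
def g₀ : V (4 + 4) → ZMod 2 := mm fun y => y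

/-- the function `h(x,y) = x·π(y)` -/
def h₀ : V (4 + 4) → ZMod 2 := mm P

theorem gh₀ : (fun x => g₀ x + h₀ x) = mm Q := by
  funext x
  show fst x ⬝ᵥ snd x + fst x ⬝ᵥ P (snd x) = fst x ⬝ᵥ Q (snd x)
  rw [← dotProduct_add]
  rfl

theorem bent_g₀ : IsBent g₀ ∧ ∀ u, dual g₀ u = snd u ⬝ᵥ fst u :=
  dual_of_walsh (walsh_mm (π := fun y : V 4 => y) (ρ := fun y => y) (fun _ => rfl) (fun _ => rfl))

theorem bent_h₀ : IsBent h₀ ∧ ∀ u, dual h₀ u = snd u ⬝ᵥ Q (fst u) :=
  dual_of_walsh (walsh_mm PQ QP)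

theorem bent_gh₀ : IsBent (fun x => g₀ x + h₀ x) ∧
    ∀ u, dual (fun x => g₀ x + h₀ x) u = snd u ⬝ᵥ P (fst u) := by
  rw [gh₀]
  exact dual_of_walsh (walsh_mm QP PQ)

theorem dual_add₀ (u : V (4 + 4)) : dual (fun x => g₀ x + h₀ x) u = dual g₀ u + dual h₀ u := by
  rw [bent_g₀.2, bent_h₀.2, bent_gh₀.2, ← dotProduct_add]
  congr 1
  funext i
  show P (fst u) i = fst u i + (fst u i + P (fst u) i)
  rw [← add_assoc, CharTwo.add_self_eq_zero, zero_add]

theorem fst_append (x y : V 4) : fst (Fin.append x y : V (4 + 4)) = x := by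
  funext i
  exact Fin.append_left x y i

theorem snd_append (x y : V 4) : snd (Fin.append x y : V (4 + 4)) = y := by
  funext i
  exact Fin.append_right x y i

theorem fst_add (X Y : V (4 + 4)) : fst (X + Y) = fst X + fst Y := rfl
theorem snd_add (X Y : V (4 + 4)) : snd (X + Y) = snd X + snd Y := rfl

theorem rank₀ : (designMatrix g₀ h₀).rank < (translationMatrix h₀).rank := by
  refine rank_design_lt (k := 6) (l := 4) (fun j => Fin.append 0 (S j))
    ![0, Fin.append ![1,0,0,0] 0, Fin.append 0 ![0,1,0,0], Fin.append ![1,0,0,0] ![0,1,0,0]]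
    ?_ ?_ ?_ ?_ (by decide) (Fin.append ![1,0,0,0] ![0,1,0,0]) ?_
  · intro X
    show ∑ j, fst (X + Fin.append 0 (S j)) ⬝ᵥ P (snd (X + Fin.append 0 (S j))) =
      fst X ⬝ᵥ snd X
    simp only [fst_add, snd_add, fst_append, snd_append, add_zero]
    simp only [dotProduct]
    rw [Finset.sum_comm]
    refine Finset.sum_congr rfl fun i _ => ?_
    rw [← Finset.mul_sum, sum_S]
  · intro X
    rw [Fin.sum_univ_four]
    show fst (X + 0) ⬝ᵥ P (snd (X + 0)) +
      fst (X + Fin.append ![1,0,0,0] 0) ⬝ᵥ P (snd (X + Fin.append ![1,0,0,0] 0)) +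
      fst (X + Fin.append 0 ![0,1,0,0]) ⬝ᵥ P (snd (X + Fin.append 0 ![0,1,0,0])) +
      fst (X + Fin.append ![1,0,0,0] ![0,1,0,0]) ⬝ᵥ
        P (snd (X + Fin.append ![1,0,0,0] ![0,1,0,0])) = 1
    simp only [fst_add, snd_add, fst_append, snd_append, add_zero, add_dotProduct]
    have h1 := sum_T (snd X)
    have e : ∀ z : V 4, (![1,0,0,0] : V 4) ⬝ᵥ z = z 0 := by
      intro z
      simp [dotProduct, Fin.sum_univ_four]
    rw [e, e]
    refine Eq.trans ?_ h1
    have e2 : ∀ a b c d : ZMod 2, a + (a + b) + c + (c + d) = b + d := by decide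
    exact e2 _ _ _ _
  · intro j
    show fst (Fin.append 0 (S j) : V (4 + 4)) ⬝ᵥ snd (Fin.append 0 (S j) : V (4 + 4)) = 0
    rw [fst_append, zero_dotProduct]
  · show fst (0 : V (4 + 4)) ⬝ᵥ snd (0 : V (4 + 4)) = 0
    have : fst (0 : V (4 + 4)) = 0 := rfl
    rw [this, zero_dotProduct]
  · show fst (Fin.append ![1,0,0,0] ![0,1,0,0] : V (4 + 4)) ⬝ᵥ
        snd (Fin.append ![1,0,0,0] ![0,1,0,0] : V (4 + 4)) +
      fst (Fin.append ![1,0,0,0] ![0,1,0,0] : V (4 + 4)) ⬝ᵥ
        P (snd (Fin.append ![1,0,0,0] ![0,1,0,0] : V (4 + 4))) ≠ 0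
    rw [fst_append, snd_append]
    decide

/-- **Negative answer to Q1.** -/
theorem result :
    (¬ ∀ m : ℕ, Even m → 0 < m → ∀ g h : V m → ZMod 2, IsBent g → IsBent h →
      IsBent (fun x => g x + h x) → (∀ u, dual (fun x => g x + h x) u = dual g u + dual h u) →
      (designMatrix g h).rank = (translationMatrix h).rank) ∧
    ∃ g h : V 8 → ZMod 2, IsBent g ∧ IsBent h ∧ IsBent (fun x => g x + h x) ∧
      (∀ u, dual (fun x => g x + h x) u = dual g u + dual h u) ∧
      (designMatrix g h).rank < (translationMatrix h).rank := by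
  refine ⟨fun h => ?_, g₀, h₀, bent_g₀.1, bent_h₀.1, bent_gh₀.1, dual_add₀, rank₀⟩
  have := h (4 + 4) (by decide) (by norm_num) g₀ h₀ bent_g₀.1 bent_h₀.1 bent_gh₀.1 dual_add₀
  exact rank₀.ne this

end Pool.Agent.Results.MP_52c3fe_co.RankDrop
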